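import Pool.Agent.Q244.TD.Gm.Rat

/-!
# The `p`-adic expected answer for the tori `R_{K/ℚ}(𝔾_m)` of all number fields `K`, for relations with
exponents in a given space

Let `A` be a subspace of `ℂ_p` of finite dimension `m` over the algebraic numbers.  For a number field `K`
let `Kernel K` be the subspace of `ℂ_p ⊗ K^×` generated by the `x = ∑ a_i ⊗ u_i` with `a_i ∈ A`, with
elements `u_i` of `K^×` which have all `p`-adic absolute values `1`, and with `∑ a_i log_p (σ u_i) = 0` for
all embeddings `σ` of `K` in `ℂ_p`.  (A finitely generated subgroup of `K^×`, contained in a compact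
subgroup of `(K ⊗ ℚ_p)^×`, has a closure of smaller rank if and only if it has such a relation with
exponents in `ℚ_p`.)

The theorem: there is one number field `F ⊆ ℂ_p`, normal over `ℚ`, such that

(1) elements `ε_i` of `K^×` (`K` any number field) with absolute values `1` which satisfy a relation
`∑ a_i log_p (τ ε_i) = 0` (all `τ`) with `a_i ∈ A` linearly independent over `ℚ` have powers which lie in
`F` under each embedding;

(2) for each number field `K` and embedding `σ` the dimension of `Kernel K` is the dimension of the space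
of the vectors of `Kernel F` which are fixed by the automorphisms of `F` which fix `F ∩ σ K`;

(3) the dimension `n` of `Kernel F` is at most `m (m - 1)` (and satisfies the other bounds in `Bounds`);

(4) `Gal(F/ℚ)` acts faithfully on `Kernel F`, so it is isomorphic to a subgroup of `GL_n(ℂ_p)`;

(5) if `K` is a number field with `F ∩ σ K = ℚ` for some embedding `σ`, or a Galois extension of `ℚ`
whose Galois group has only trivial homomorphisms to `GL_n(ℂ_p)` for `n ≤ m (m - 1)`, then the expected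
answer holds for `K` and exponents in `A`: if `T` is a subgroup of `K^×` of elements with all absolute
values `1` and if `T ∩ ℚ^×` has rank at most `1`, then there are no multiplicatively independent
`ε_i ∈ T` and `a_i ∈ A`, not all zero, with `∑ a_i log_p (σ ε_i) = 0` for all `σ`.

Proof.  By the `p`-adic hyperplane theorem (a case of the linear subgroup theorem) and Brumer's theorem
there is a field `F` with (1), and `Kernel K` has dimension at most `m (m - 1)`.  The elements which occur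
in a relation with coefficients linearly independent over `ℚ` are determined up to torsion by the
relation; with this remark (2) and, for `F` of minimal degree, (4) follow, and in (5) the elements in
relations have rational powers.
-/

set_option autoImplicit false

namespace Pool.Agent.Results.MP_7de521_nt.AllNumberFields

open NumberField Module TensorProduct
open Pool.Agent.W289.SL (IsIwasawaLog)
open Pool.Agent.W332.SL7 (QSub FinQ Bounds dimQ)

section generic

variable {Ω : Type} [Field Ω] [CharZero Ω] (v : Ω → ℝ) (L : Ω → Ω) (A : QSub Ω)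

variable (Ω) in
/-- `Ω ⊗ K^×` -/
abbrev U (K : Type) [Field K] : Type := Ω ⊗[ℤ] Additive Kˣ

/-- The action of an automorphism of `F` on `Ω ⊗ F^×`. -/
noncomputable def act {F : Type} [Field F] [CharZero F] (γ : F ≃ₐ[ℚ] F) : U Ω F →ₗ[Ω] U Ω F :=
  (MonoidHom.toAdditive (Units.map (((γ : F →+* F)) : F →* F))).toIntLinearMap.baseChange Ω

/-- All the absolute values of `u` are `1`. -/
def IsCompact {K : Type} [Field K] (u : Kˣ) : Prop := ∀ σ : K →+* Ω, v (σ u) = 1

/-- `x = ∑ a_i ⊗ u_i` with `a_i ∈ A`, the absolute values of `u_i` are `1`, and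
`∑ a_i L (σ u_i) = 0` for all embeddings `σ`. -/
def InKernel {K : Type} [Field K] (x : U Ω K) : Prop :=
  ∃ (n : ℕ) (a : Fin n → Ω) (u : Fin n → Kˣ), (∀ i, a i ∈ A) ∧ (∀ i, IsCompact v (u i)) ∧
    x = ∑ i, a i ⊗ₜ[ℤ] Additive.ofMul (u i) ∧ ∀ σ : K →+* Ω, ∑ i, a i * L (σ (u i)) = 0

/-- The `Ω`-space spanned by these elements. -/
def Kernel (K : Type) [Field K] : Submodule Ω (U Ω K) := Submodule.span Ω {x | InKernel v L A x}

/-- The dimension of this space. -/
noncomputable def defect (K : Type) [Field K] : ℕ := finrank Ω (Kernel v L A K)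

/-- (1) -/
def PowersIn (F : IntermediateField ℚ Ω) : Prop :=
  ∀ (n : ℕ) (K : Type) [Field K] [NumberField K] (σ : K →+* Ω) (ε : Fin n → Kˣ)
    (a : Fin n → Ω), (∀ i, IsCompact v (ε i)) → (∀ i, a i ∈ A) →
    (∀ w : Fin n → ℚ, ∑ i, (w i : Ω) * a i = 0 → w = 0) →
    (∀ τ : K →+* Ω, ∑ i, a i * L (τ (ε i)) = 0) →
    ∀ i, ∃ m : ℕ, 1 ≤ m ∧ σ (ε i) ^ m ∈ F

/-- The automorphism `γ` of `F` fixes the elements of `F` in the image of `σ`. -/
def Fixes {K : Type} [Field K] {F : IntermediateField ℚ Ω} (σ : K →+* Ω) (γ : F ≃ₐ[ℚ] F) : Prop :=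
  ∀ y : F, (y : Ω) ∈ σ.range → γ y = y

/-- The vectors `x` of `W` with `γ x = x` for all `γ` in `S`. -/
def invariants {F : Type} [Field F] [CharZero F] (S : Set (F ≃ₐ[ℚ] F))
    (W : Submodule Ω (U Ω F)) : Submodule Ω (U Ω F) where
  carrier := {x | x ∈ W ∧ ∀ γ ∈ S, act γ x = x}
  add_mem' := by
    rintro x y ⟨hx, hx'⟩ ⟨hy, hy'⟩
    exact ⟨add_mem hx hy, fun γ hγ => by rw [map_add, hx' γ hγ, hy' γ hγ]⟩
  zero_mem' := ⟨zero_mem _, fun γ _ => map_zero _⟩
  smul_mem' := by
    rintro c x ⟨hx, hx'⟩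
    exact ⟨Submodule.smul_mem _ _ hx, fun γ hγ => by rw [map_smul, hx' γ hγ]⟩

/-- The dimension of the space of these vectors. -/
noncomputable def dimInv {F : Type} [Field F] [CharZero F] (S : Set (F ≃ₐ[ℚ] F))
    (W : Submodule Ω (U Ω F)) : ℕ := finrank Ω (invariants S W)

/-- (2) -/
def AllFields (F : IntermediateField ℚ Ω) : Prop :=
  ∀ (K : Type) [Field K] [NumberField K] (σ : K →+* Ω),
    defect v L A K = dimInv {γ | Fixes σ γ} (Kernel v L A F)

variable (Ω) in
/-- There is an injective homomorphism from `G` to `GL_n(Ω)`. -/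
def EmbedsGL (G : Type) [Group G] (n : ℕ) : Prop := ∃ ρ : G →* GL (Fin n) Ω, Function.Injective ρ

variable (Ω) in
/-- All homomorphisms from `G` to `GL_n(Ω)` with `n ≤ N` are trivial. -/
def OnlyTrivial (G : Type) [Group G] (N : ℕ) : Prop := ∀ n ≤ N, ∀ ρ : G →* GL (Fin n) Ω, ρ = 1

/-- (4) -/
def Faithful (F : Type) [Field F] [CharZero F] : Prop :=
  (∀ γ : F ≃ₐ[ℚ] F, (∀ x ∈ Kernel v L A F, act γ x = x) → γ = 1) ∧
  EmbedsGL Ω (F ≃ₐ[ℚ] F) (defect v L A F)

/-- Any two rational numbers in `T` are multiplicatively dependent. -/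
def RationalRankLeOne {K : Type} [Field K] (T : Subgroup Kˣ) : Prop :=
  ∀ u ∈ T, ∀ w ∈ T, (∃ q : ℚ, (u : K) = q) → (∃ q : ℚ, (w : K) = q) →
    ∃ a b : ℤ, (a, b) ≠ 0 ∧ u ^ a = w ^ b

/-- The expected answer for `K` and exponents in `A`. -/
def NoRelations (K : Type) [Field K] : Prop :=
  ∀ T : Subgroup Kˣ, (∀ u ∈ T, IsCompact v u) → RationalRankLeOne T →
    ∀ (n : ℕ) (ε : Fin n → Kˣ), (∀ i, ε i ∈ T) → (∀ m : Fin n → ℤ, ∏ i, ε i ^ m i = 1 → m = 0) →
      ∀ a : Fin n → Ω, (∀ i, a i ∈ A) → (∀ σ : K →+* Ω, ∑ i, a i * L (σ (ε i)) = 0) → a = 0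

/-- `F` and the image of some embedding of `K` meet in `ℚ`. -/
def MeetsInQ (F : IntermediateField ℚ Ω) (K : Type) [Field K] : Prop :=
  ∃ σ : K →+* Ω, ∀ z ∈ F, z ∈ σ.range → ∃ q : ℚ, z = q

/-- (5) -/
def ExpectedAnswer (F : IntermediateField ℚ Ω) : Prop :=
  ∀ (K : Type) [Field K] [NumberField K],
    (MeetsInQ F K ∨ (IsGalois ℚ K ∧ OnlyTrivial Ω (K ≃ₐ[ℚ] K) (dimQ A * (dimQ A - 1)))) →
      NoRelations v L A K

/-- All the properties of `F`. -/
def IsTheField (F : IntermediateField ℚ Ω) : Prop :=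
  Normal ℚ F ∧
  -- (1), (2)
  PowersIn v L A F ∧ AllFields v L A F ∧
  -- (3)
  defect v L A F ≤ dimQ A * (dimQ A - 1) ∧ Bounds A (defect v L A F) ∧
  -- (4), (5)
  Faithful v L A F ∧ ExpectedAnswer v L A F

/-- There is such a number field. -/
def OneField : Prop := ∃ F : IntermediateField ℚ Ω, NumberField F ∧ IsTheField v L A F

end generic

section aux

open Pool.Agent.W289.SL Pool.Agent.Q244.LK Pool.Agent.Q244.TD.Gm

variable {p : ℕ} [Fact p.Prime] {L : ℂ_[p] → ℂ_[p]} (hL : IsIwasawaLog p L) (A : QSub ℂ_[p])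

/-- the inclusion -/
private noncomputable def jmap (p : ℕ) [Fact p.Prime] (K : Type) [Field K] :
    CM p K →ₗ[ℂ_[p]] U ℂ_[p] K :=
  (MonoidHom.toAdditive (Comp p K).subtype).toIntLinearMap.baseChange ℂ_[p]

private theorem jmap_tmul {K : Type} [Field K] (c : ℂ_[p]) (u : Additive (Comp p K)) :
    jmap p K (c ⊗ₜ u) = c ⊗ₜ Additive.ofMul ((Additive.toMul u : Comp p K) : Kˣ) := rfl

private theorem jmap_inj (K : Type) [Field K] : Function.Injective (jmap p K) := by
  have h1 : Function.Injective (MonoidHom.toAdditive (Comp p K).subtype).toIntLinearMap := by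
    intro u v h
    exact Subtype.ext h
  exact Module.Flat.lTensor_preserves_injective_linearMap (M := ℂ_[p]) _ h1

private theorem act_jmap {F : Type} [Field F] [CharZero F] (γ : F ≃ₐ[ℚ] F) (x : CM p F) :
    act γ (jmap p F x) = jmap p F (cpush (γ : F →+* F) x) := by
  induction x using TensorProduct.induction_on with
  | zero => simp
  | tmul c u => rfl
  | add x y hx hy => rw [map_add, map_add, map_add, map_add, hx, hy]

private theorem kernel_eq (K : Type) [Field K] :
    Kernel (fun z : ℂ_[p] => ‖z‖) L A K = (KSp hL A K).map (jmap p K) := by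
  have h : {x | InKernel (fun z : ℂ_[p] => ‖z‖) L A x} =
      (jmap p K) '' {x : CM p K | InKer hL A x} := by
    ext x
    constructor
    · rintro ⟨n, a, u, ha, hu, rfl, h⟩
      refine ⟨∑ i, a i ⊗ₜ[ℤ] Additive.ofMul (⟨u i, hu i⟩ : Comp p K), ⟨coords_sum _ _ ha,
        fun σ => ?_⟩, ?_⟩
      · rw [map_sum, ← h σ]
        exact Finset.sum_congr rfl fun i _ => rfl
      · rw [map_sum]
        exact Finset.sum_congr rfl fun i _ => rfl
    · rintro ⟨y, ⟨h1, h2⟩, rfl⟩
      obtain ⟨n, c, u, hc, -, rfl⟩ := rep A y h1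
      refine ⟨n, c, fun i => ((Additive.toMul (u i) : Comp p K) : Kˣ), hc,
        fun i => (Additive.toMul (u i)).2, ?_, fun σ => ?_⟩
      · rw [map_sum]
        exact Finset.sum_congr rfl fun i _ => rfl
      · rw [← h2 σ, map_sum]
        exact Finset.sum_congr rfl fun i _ => rfl
  unfold Kernel KSp
  rw [h, Submodule.map_span]

private theorem finrank_map (K : Type) [Field K] (W : Submodule ℂ_[p] (CM p K)) :
    finrank ℂ_[p] (W.map (jmap p K)) = finrank ℂ_[p] W :=
  (LinearEquiv.finrank_eq (Submodule.equivMapOfInjective _ (jmap_inj K) _)).symm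

private theorem defect_eq (K : Type) [Field K] :
    defect (fun z : ℂ_[p] => ‖z‖) L A K = finrank ℂ_[p] (KSp hL A K) := by
  unfold defect
  rw [kernel_eq hL, finrank_map]

private theorem inv_eq (F : IntermediateField ℚ ℂ_[p]) [NumberField F] {K : Type} [Field K]
    (σ : K →+* ℂ_[p]) : invariants {γ | Fixes σ γ} (Kernel (fun z : ℂ_[p] => ‖z‖) L A F) =
      (inv hL A F σ).map (jmap p F) := by
  rw [kernel_eq hL]
  ext x
  constructor
  · rintro ⟨⟨y, hy, rfl⟩, h⟩
    refine ⟨y, ⟨hy, fun γ hγ => ?_⟩, rfl⟩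
    apply jmap_inj
    rw [← act_jmap]
    exact h γ hγ
  · rintro ⟨y, ⟨hy, h⟩, rfl⟩
    refine ⟨⟨y, hy, rfl⟩, fun γ hγ => ?_⟩
    rw [act_jmap, h γ hγ]

end aux

/-- **Main result.** -/
theorem result (p : ℕ) [Fact p.Prime] (L : ℂ_[p] → ℂ_[p]) (hL : IsIwasawaLog p L) (A : QSub ℂ_[p])
    (hA : FinQ A) : OneField (fun z : ℂ_[p] => ‖z‖) L A := by
  classical
  obtain ⟨F, hN, h1, h2, h3⟩ := Pool.Agent.Q244.TD.Gm.exists_min hL A hA
  have hG : IsGalois ℚ F := { to_normal := h1, to_isSeparable := inferInstance }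
  have hB := (Pool.Agent.Q244.TD.Gm.ksp_basis hL A hA F).2
  refine ⟨F, hN, h1, ?_, fun K _ _ σ => ?_, ?_, ?_, ⟨fun γ hγ => ?_, ?_⟩, ?_⟩
  · intro n K _ _ σ ε a hε ha hai hrel i
    exact h2 n K σ (fun i => Additive.ofMul ⟨ε i, hε i⟩) a ha hai hrel i
  · rw [defect_eq hL, Pool.Agent.Q244.TD.Gm.finrank_eq_inv hL A h2 K σ]
    unfold dimInv
    rw [inv_eq hL, finrank_map]
  · rw [defect_eq hL]
    exact hB.dim
  · rw [defect_eq hL]
    exact hB
  · rw [kernel_eq hL] at hγ
    have h4 : γ ∈ Pool.Agent.Q244.TD.Gm.triv hL A F := by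
      rw [Pool.Agent.Q244.TD.Gm.mem_triv]
      intro x hx
      apply jmap_inj
      rw [← act_jmap]
      exact hγ _ ⟨x, Submodule.subset_span hx, rfl⟩
    rw [h3] at h4
    exact Subgroup.mem_bot.1 h4
  · rw [defect_eq hL]
    exact Pool.Agent.Q244.TD.Gm.exists_gl hL A hA F h3
  · rintro K _ _ hK T hT hrk n ε hε hind a ha h0
    have h4 : Pool.Agent.Q244.TD.Gm.RatPowers L A K := by
      rcases hK with ⟨σ, hσ⟩ | ⟨h5, h6⟩
      · exact Pool.Agent.Q244.TD.Gm.ratPowers_of_inf h2 K σ hσ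
      · exact Pool.Agent.Q244.TD.Gm.ratPowers_of_reps hL hA K h6
    exact Pool.Agent.Q244.TD.Gm.no_relation hL h4 T hT hrk ε hε hind a ha h0

end Pool.Agent.Results.MP_7de521_nt.AllNumberFields
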