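import Pool.Agent.Q244.TD.Groups

/-!
# Relations in the `p`-adic closures of subgroups of `R_{K/ℚ}(G_m)` with exponents in a given space

Let `K` be a number field and `H` a subgroup of `Kˣ`, the group of rational points of
`R_{K/ℚ}(G_m)`, contained in the maximal compact subgroup of the group `(K ⊗ ℚ_p)ˣ` of `p`-adic points,
i.e. `|σ x| = 1` for all `x ∈ H` and all embeddings `σ` of `K` in `ℂ_p`.  The closure of a finitely
generated `H` is commensurable with `ℤ_p ^ rank H` if and only if there are no multiplicatively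
independent `h_i ∈ H` and `a_i ∈ ℚ_p`, not all zero, with `∑ a_i log_p (σ h_i) = 0` for all `σ`.  We
consider relations with exponents `a_i` in a subspace `A` of `ℂ_p` of finite dimension `m` over the field
of algebraic numbers, and already the relation for one embedding `σ`.

(1) There are algebraic numbers `w_1, …, w_r` of absolute value `1`, depending only on `A` and `p`, with
the following property, for all number fields `K`, all embeddings `σ` and all subgroups `H` of `Kˣ` with
`|σ x| = 1` for `x ∈ H`: if `σ (x) ^ N` lies in the group generated by the `w_j` for no `x ∈ H` of infinite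
order and no `N ≥ 1`, then `H` has no relation with exponents in `A`.

(2) Let `H_1, …, H_M` be independent subgroups of `Kˣ` (the intersection of `H_k` and `H_1 ⋯ H_(k-1)` is
torsion) of elements with `|σ x| = 1`.  If there are `r_k` linearly independent relations with exponents
in `A` between some multiplicatively independent elements of `H_k` then `∑ r_k ≤ m (m - 1)`, and
`∑ r_k ≤ (4 D) ^ n - 2 ^ n` if `A` consists of values of polynomials of degree at most `D` in each of `n`
numbers.  In particular the number of the `H_k` with a relation is at most `m (m - 1)`.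

Proof.  The relations with exponents in `A` between linear forms in logarithms form a finite dimensional
space by the `p`-adic hyperplane theorem (a case of the linear subgroup theorem); Brumer's theorem.
-/

set_option autoImplicit false

namespace Pool.Agent.Results.MP_7de521_nt.ExponentsInASpace

open NumberField Module
open Pool.Agent.W332.SL7 (Bounds)

/-- `L` is Iwasawa's `p`-adic logarithm on `ℂ_p` (the value at `0` is irrelevant). -/
def IsIwasawaLog (p : ℕ) [Fact p.Prime] (L : ℂ_[p] → ℂ_[p]) : Prop :=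
  (∀ x y : ℂ_[p], x ≠ 0 → y ≠ 0 → L (x * y) = L x + L y) ∧
  L ((p : ℕ) : ℂ_[p]) = 0 ∧
  ∀ z : ℂ_[p], ‖z‖ < 1 →
    HasSum (fun n : ℕ => (-1 : ℂ_[p]) ^ n * z ^ (n + 1) / ((n : ℂ_[p]) + 1)) (L (1 + z))

/-- Subspaces of `ℂ_p` over the field of algebraic numbers. -/
abbrev Space (p : ℕ) [Fact p.Prime] : Type := Submodule (algebraicClosure ℚ ℂ_[p]) ℂ_[p]

/-- The dimension of `A` over the field of algebraic numbers. -/
noncomputable def dim {p : ℕ} [Fact p.Prime] (A : Space p) : ℕ :=
  finrank (algebraicClosure ℚ ℂ_[p]) A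

variable {p : ℕ} [Fact p.Prime] (L : ℂ_[p] → ℂ_[p]) (A : Space p)

/-- All elements of `H` have absolute value `1` at `σ`. -/
def Compact {K : Type} [Field K] (σ : K →+* ℂ_[p]) (H : Subgroup Kˣ) : Prop :=
  ∀ x ∈ H, ‖σ x‖ = 1

/-- Between some multiplicatively independent elements of `H` there are `r` linearly independent
relations `∑ a_i log (σ h_i) = 0` with exponents `a_i ∈ A`. -/
def Relations {K : Type} [Field K] (σ : K →+* ℂ_[p]) (H : Subgroup Kˣ) (r : ℕ) : Prop :=
  ∃ (n : ℕ) (h : Fin n → Kˣ) (a : Fin r → Fin n → ℂ_[p]),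
    (∀ i, h i ∈ H) ∧ (∀ m : Fin n → ℤ, ∏ i, h i ^ m i = 1 → m = 0) ∧ (∀ l i, a l i ∈ A) ∧
    LinearIndependent ℂ_[p] a ∧ ∀ l, ∑ i, a l i * L (σ (h i)) = 0

/-- `σ x` has a power in the group generated by the `w j`. -/
def PowerIn {K : Type} [Field K] (σ : K →+* ℂ_[p]) {r : ℕ} (w : Fin r → ℂ_[p]) (x : Kˣ) : Prop :=
  ∃ N : ℕ, 1 ≤ N ∧ ∃ e : Fin r → ℤ, σ x ^ N = ∏ j, w j ^ e j

/-- `x` has finite order. -/
def Torsion {K : Type} [Field K] (x : Kˣ) : Prop := ∃ N : ℕ, 1 ≤ N ∧ x ^ N = 1

/-- (1) for the numbers `w j`. -/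
def Generic {r : ℕ} (w : Fin r → ℂ_[p]) : Prop :=
  ∀ (K : Type) [Field K] [NumberField K] (σ : K →+* ℂ_[p]) (H : Subgroup Kˣ), Compact σ H →
    (∀ x ∈ H, PowerIn σ w x → Torsion x) → ¬ Relations L A σ H 1

/-- (2) -/
def IndependentGroups : Prop :=
  ∀ (K : Type) [Field K] [NumberField K] (σ : K →+* ℂ_[p]) (M : ℕ) (H : Fin M → Subgroup Kˣ),
    (∀ k, Compact σ (H k)) →
    (∀ k, ∀ x ∈ H k, x ∈ (⨆ j : {j : Fin M // j < k}, H j) → Torsion x) →
    ∀ r : Fin M → ℕ, (∀ k, Relations L A σ (H k) (r k)) →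
      ∑ k, r k ≤ dim A * (dim A - 1) ∧ Bounds A (∑ k, r k)

/-- **Main result.** -/
theorem result (p : ℕ) [Fact p.Prime] (L : ℂ_[p] → ℂ_[p]) (hL : IsIwasawaLog p L) (A : Space p)
    (hA : FiniteDimensional (algebraicClosure ℚ ℂ_[p]) A) :
    (∃ (r : ℕ) (w : Fin r → ℂ_[p]), (∀ j, IsAlgebraic ℚ (w j) ∧ ‖w j‖ = 1) ∧ Generic L A w) ∧
    IndependentGroups L A := by
  have hL' : Pool.Agent.W289.SL.IsIwasawaLog p L := ⟨hL.1, hL.2.1, hL.2.2⟩
  have near : ∀ (K : Type) [Field K] [NumberField K] (σ : K →+* ℂ_[p]) (x : Kˣ), ‖σ x‖ = 1 →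
      Pool.Agent.W332.SL6.NearU (σ x) := by
    intro K _ _ σ x hx
    exact Pool.Agent.Q244.LK.nearU_of_norm
      ((Algebra.IsAlgebraic.isAlgebraic (R := ℚ) (x : K)).algHom (RingHom.toRatAlgHom σ)) hx
  refine ⟨?_, ?_⟩
  · obtain ⟨r, w, hw, h⟩ := Pool.Agent.Q244.TD.group_of_space hL' A
    refine ⟨r, w, fun j => ⟨(hw j).alg, Pool.Agent.Q244.LK.norm_of_nearU (hw j)⟩, ?_⟩
    rintro K _ _ σ H hH hgen ⟨n, g, a, hg, hind, ha, hli, h0⟩
    obtain ⟨s, y, c, hy, ⟨j, hj⟩, hc, hci, hsum⟩ :=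
      Pool.Agent.Q244.TD.dual_gen H (Pool.Agent.Q244.TD.logM hL' σ) g hg (a 0) hind (ha 0)
        (hli.ne_zero 0) (h0 0)
    obtain ⟨N, hN, e, he⟩ := h s c (fun j => σ (y j)) hc hci (fun j => near K σ _ (hH _ (hy j)))
      hsum j
    obtain ⟨N', hN', h1⟩ := hgen (y j) (hy j) ⟨N, hN, e, he⟩
    exact hj N' hN' h1
  · intro K _ _ σ M H hH hT r hrel
    choose n g a hg hind ha hli h0 using hrel
    have hb := Pool.Agent.Q244.TD.bounds_groups hL' A hA σ H (fun k x hx => near K σ x (hH k x hx))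
      hT n r g hg hind a ha hli h0
    exact ⟨hb.dim, hb⟩

end Pool.Agent.Results.MP_7de521_nt.ExponentsInASpace
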