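import Pool.Agent.Q221.TW.Two

/-!
# `p`-adic closures of the subgroups of almost all integer twists of a group of points of
`R_{K/ℚ}(G_m)`

Let `K` be a number field of degree `n` and `A = R_{K/ℚ}(G_m)`, so `A(ℚ) = Kˣ` and
`A(ℚ_p) = (K ⊗ ℚ_p)ˣ`. For a finitely generated group `H ⊆ Kˣ` contained in the maximal compact
subgroup of `A(ℚ_p)` the closure of `H` is commensurable with `ℤ_p ^ s`, where `s` is the dimension
of the `ℚ_p`-span of `log_p H` in `K ⊗ ℚ_p`, that is, the dimension of the span of the vectors
`(log_p (σ x))_σ`, `x ∈ H`, where `σ` runs through the embeddings of `K` in an algebraic closure of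
`ℚ_p`. Call this dimension the `p`-adic rank of `H`; it is at most the rank of `H`.

Let `α_1, …, α_l ∈ Kˣ`. For almost all `a ∈ [1, x] ^ l` (all but `ε x ^ l` for `x ≥ x₀(n, l, ε)`,
uniformly in `K`, `α` and the prime `p`) every subgroup of the group generated by the `a_j α_j` has
`p`-adic rank equal to its rank, or the span of its logarithm vectors contains `(1, …, 1)` (if the
subgroup lies in the maximal compact subgroup: its closure contains an open subgroup of
`G_m(ℤ_p) = ℤ_pˣ`). The whole group has rank `l`, and its `p`-adic rank is `l` or the span of its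
logarithm vectors is the largest possible, the one of `ℚ̄_pˣ ⟨α_1, …, α_l⟩`. If `n = 2`, every
subgroup of the twisted group which lies in the maximal compact subgroup satisfies the `p`-adic part
of the expected answer.

The proof: if the logarithm vectors of a basis of `H` are dependent and their span does not contain
`(1, …, 1)`, Cramer's rule gives a linear relation, with coefficients in a space of dimension bounded
in terms of `n` and `l` over the algebraic numbers, between the numbers `log_p a_j` and `1`; almost
all tuples have no such relation by Brumer's theorem (the `p`-adic form of Baker's theorem) and the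
density theorem of `Pool.Agent.W245.PB` (starting files).
-/

set_option autoImplicit false

namespace Pool.Agent.Results.MP_7de521_nt.PadicTwists

open Module

/-- `L` is the Iwasawa `p`-adic logarithm on the algebraic closure of `ℚ_p`. -/
def IsIwasawaLog (p : ℕ) [Fact p.Prime] (L : PadicAlgCl p → PadicAlgCl p) : Prop :=
  (∀ x y : PadicAlgCl p, x ≠ 0 → y ≠ 0 → L (x * y) = L x + L y) ∧
  L ((p : ℕ) : PadicAlgCl p) = 0 ∧
  ∀ z : PadicAlgCl p, ‖z‖ < 1 →
    HasSum (fun n : ℕ => (-1 : PadicAlgCl p) ^ n * z ^ (n + 1) / ((n : PadicAlgCl p) + 1))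
      (L (1 + z))

/-- The span of the vectors `(L (σ x))_σ`, `x ∈ H`, where `σ` runs through the embeddings of `K` in
the algebraic closure of `ℚ_p`. -/
noncomputable def logSpan {p : ℕ} [Fact p.Prime] (L : PadicAlgCl p → PadicAlgCl p)
    {K : Type} [Field K] (H : Subgroup Kˣ) :
    Submodule (PadicAlgCl p) ((K →+* PadicAlgCl p) → PadicAlgCl p) :=
  Submodule.span _ {v | ∃ x ∈ H, v = fun σ : K →+* PadicAlgCl p => L (σ (x : K))}

/-- The rank of a commutative group. -/
noncomputable def rk (G : Type) [CommGroup G] : ℕ := Module.finrank ℤ (Additive G)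

/-- The group `ℚˣ = G_m(ℚ)` in `Kˣ = A(ℚ)`. -/
def ratUnits (K : Type) [Field K] [NumberField K] : Subgroup Kˣ :=
  (Units.map (algebraMap ℚ K : ℚ →* K)).range

/-- The group generated by the `a j * α j`. -/
def twist {K : Type} [Field K] {l : ℕ} (α : Fin l → Kˣ) (a : Fin l → ℕ) : Subgroup Kˣ :=
  Subgroup.closure {y : Kˣ | ∃ j, (y : K) = a j * α j}

variable {p : ℕ} [Fact p.Prime] (L : PadicAlgCl p → PadicAlgCl p)

/-- (1) every subgroup `H` of the twisted group has `p`-adic rank equal to its rank, or the span of
its logarithm vectors contains `(1, …, 1)`. -/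
def AllSubgroups (K : Type) [Field K] [NumberField K] {l : ℕ} (α : Fin l → Kˣ) (a : Fin l → ℕ) :
    Prop :=
  ∀ H ≤ twist α a, finrank (PadicAlgCl p) (logSpan L H) = rk H ∨ (fun _ => 1) ∈ logSpan L H

/-- (2) the twisted group has rank `l` and `p`-adic rank `l`, or it has rank `l` and the span of its
logarithm vectors is spanned by `(1, …, 1)` and those of the group generated by the `α j`. -/
def WholeGroup (K : Type) [Field K] [NumberField K] {l : ℕ} (α : Fin l → Kˣ) (a : Fin l → ℕ) :
    Prop :=
  rk (twist α a) = l ∧ (finrank (PadicAlgCl p) (logSpan L (twist α a)) = l ∨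
    logSpan L (twist α a) =
      logSpan L (Subgroup.closure (Set.range α)) ⊔ Submodule.span _ {fun _ => 1})

/-- (3) for quadratic fields: every subgroup `H` of the twisted group, contained in the maximal
compact subgroup, has `p`-adic rank equal to its rank unless `rank H > 2 = dim A` or
`rank (H ∩ G_m) > 1 = dim G_m`. -/
def ExpectedAnswer (K : Type) [Field K] [NumberField K] {l : ℕ} (α : Fin l → Kˣ)
    (a : Fin l → ℕ) : Prop :=
  ∀ H ≤ twist α a, (∀ x ∈ H, ∀ σ : K →+* PadicAlgCl p, ‖σ (x : K)‖ = 1) →
    finrank (PadicAlgCl p) (logSpan L H) = rk H ∨ 2 < rk H ∨ 1 < rk ↥(H ⊓ ratUnits K)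

open Classical in
/-- **Main result.** -/
theorem result (n l : ℕ) (ε : ℝ) (hε : 0 < ε) :
    ∃ x₀ : ℕ, ∀ x ≥ x₀, ∀ (p : ℕ) [Fact p.Prime] (L : PadicAlgCl p → PadicAlgCl p),
      IsIwasawaLog p L → ∀ (K : Type) [Field K] [NumberField K], finrank ℚ K = n →
      ∀ α : Fin l → Kˣ,
      (((Fintype.piFinset fun _ : Fin l => Finset.Icc 1 x).filter fun a =>
        ¬ (AllSubgroups L K α a ∧ WholeGroup L K α a ∧
          (n = 2 → ExpectedAnswer L K α a))).card : ℝ) ≤ ε * (x : ℝ) ^ l := by
  obtain ⟨x₀, hx₀⟩ := Pool.Agent.Q221.TW.count n l ε hε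
  refine ⟨x₀, fun x hx p _ L hL K _ _ hn α => ?_⟩
  have hL' : Pool.Agent.W245.PB.IsIwasawaLog p L := ⟨hL.1, hL.2.1, hL.2.2⟩
  refine hx₀ x hx p L hL' K hn α _ ?_ ?_
  · intro a ha
    exact (Finset.mem_filter.1 ha).1
  · rintro a ha ⟨W, h1, hW, hNL⟩
    refine (Finset.mem_filter.1 ha).2 ?_
    have hapos : ∀ j, 0 < a j := fun j =>
      (Finset.mem_Icc.1 (Fintype.mem_piFinset.1 (Finset.mem_filter.1 ha).1 j)).1
    have haK : ∀ j, (a j : K) ≠ 0 := fun j => Nat.cast_ne_zero.2 (hapos j).ne'
    set g : Fin l → Kˣ := fun j => Units.mk0 (a j * α j) (mul_ne_zero (haK j) (α j).ne_zero)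
      with hg
    have htw : twist α a = Subgroup.closure (Set.range g) := by
      unfold twist
      congr 1
      ext y
      constructor
      · rintro ⟨j, hj⟩
        exact ⟨j, Units.ext hj.symm⟩
      · rintro ⟨j, rfl⟩
        exact ⟨j, rfl⟩
    have hls : ∀ H : Subgroup Kˣ, logSpan L H = Pool.Agent.Q221.TW.logSpan L H := by
      intro H
      unfold logSpan Pool.Agent.Q221.TW.logSpan
      congr 1
      ext v
      constructor
      · rintro ⟨x, hx, rfl⟩
        exact ⟨x, hx, rfl⟩
      · rintro ⟨x, hx, rfl⟩
        exact ⟨x, hx, rfl⟩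
    obtain ⟨hfree, hgrp⟩ := Pool.Agent.Q221.TW.grp hL' α a hapos g (fun j => rfl) W h1 hW hNL
    have hrk : rk (twist α a) = l := by
      rw [htw]
      exact Pool.Agent.Q221.TW.rk_closure g hfree
    have hall : AllSubgroups L K α a := by
      intro H hH
      obtain ⟨r, b, h2, h3⟩ := hgrp H (htw ▸ hH)
      have hr : rk H = r := by
        have := Module.finrank_eq_card_basis b
        rwa [Fintype.card_fin] at this
      rw [hls, hr]
      exact h3
    refine ⟨hall, ⟨hrk, ?_⟩, fun hn2 H hH hu => ?_⟩
    · rcases hall _ le_rfl with h | h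
      · left
        rw [h, hrk]
      · right
        have hgv : ∀ j, (fun σ : K →+* PadicAlgCl p => L (σ (g j : K))) =
            (fun σ : K →+* PadicAlgCl p => L (σ (α j : K))) +
              L (a j : PadicAlgCl p) • fun _ => 1 := by
          intro j
          funext σ
          have h0 : ((a j : ℕ) : PadicAlgCl p) ≠ 0 := Nat.cast_ne_zero.2 (hapos j).ne'
          show L (σ (a j * α j : K)) = L (σ (α j : K)) + L (a j : PadicAlgCl p) * 1
          rw [map_mul, map_natCast, hL.1 _ _ h0 (Pool.Agent.Q221.TW.ne0 σ (α j)), mul_one,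
            add_comm]
        have hspan : ∀ (f : Fin l → Kˣ) (V : Submodule (PadicAlgCl p)
            ((K →+* PadicAlgCl p) → PadicAlgCl p)),
            (∀ j, (fun σ : K →+* PadicAlgCl p => L (σ (f j : K))) ∈ V) →
            logSpan L (Subgroup.closure (Set.range f)) ≤ V := by
          intro f V hV
          refine Submodule.span_le.2 ?_
          rintro _ ⟨x, hx, rfl⟩
          show Pool.Agent.Q221.TW.vec L x ∈ V
          induction hx using Subgroup.closure_induction with
          | mem x h =>
            obtain ⟨j, rfl⟩ := h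
            exact hV j
          | one =>
            rw [Pool.Agent.Q221.TW.vec_one hL']
            exact V.zero_mem
          | mul x y _ _ h1 h2 =>
            rw [Pool.Agent.Q221.TW.vec_mul hL']
            exact V.add_mem h1 h2
          | inv x _ h =>
            have h4 : Pool.Agent.Q221.TW.vec L x⁻¹ = -Pool.Agent.Q221.TW.vec L x := by
              rw [eq_neg_iff_add_eq_zero, ← Pool.Agent.Q221.TW.vec_mul hL', inv_mul_cancel,
                Pool.Agent.Q221.TW.vec_one hL']
            rw [h4]
            exact V.neg_mem h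
        apply le_antisymm
        · rw [htw]
          refine hspan g _ fun j => ?_
          rw [hgv]
          refine Submodule.add_mem_sup (Submodule.subset_span
            ⟨α j, Subgroup.subset_closure ⟨j, rfl⟩, rfl⟩) ?_
          exact Submodule.smul_mem _ _ (Submodule.mem_span_singleton_self _)
        · refine sup_le ?_ ((Submodule.span_singleton_le_iff_mem _ _).2 h)
          refine hspan α _ fun j => ?_
          have h5 : (fun σ : K →+* PadicAlgCl p => L (σ (g j : K))) ∈ logSpan L (twist α a) :=
            Submodule.subset_span ⟨g j, by rw [htw]; exact Subgroup.subset_closure ⟨j, rfl⟩, rfl⟩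
          rw [hgv] at h5
          have h6 := Submodule.sub_mem _ h5 (Submodule.smul_mem _ (L (a j : PadicAlgCl p)) h)
          rwa [add_sub_cancel_right] at h6
    · obtain ⟨r, b, h2, h3⟩ := hgrp H (htw ▸ hH)
      have hr : rk H = r := by
        have := Module.finrank_eq_card_basis b
        rwa [Fintype.card_fin] at this
      rw [hls, hr]
      rcases h3 with h3 | h3
      · exact Or.inl h3
      · exact Pool.Agent.Q221.TW.two hL' (hn.trans hn2) H b h2 h3 hu

end Pool.Agent.Results.MP_7de521_nt.PadicTwists
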